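import Pool.Agent.Helper97.SC.Main

/-!
# The cofinality of the character of a uniform ultrafilter over a strong limit singular cardinal

Let `lam` be a strong limit singular cardinal and `W` a uniform ultrafilter over a set of size
`lam`.
* `W` is `ν`-decomposable for some `ν` in the interval `(μ, 2 ^ μ⁺]`, for every `μ < lam` with
  `2 ^ cf (Ch W) ≤ μ`.
* Hence, if there are arbitrarily large `μ < lam` such that `W` is `ν`-indecomposable for all `ν` in
  `(μ, 2 ^ μ⁺]`, then `cf (Ch W) > lam`; and if in addition `Ch W` is singular, then
  `Ch W ≥ ℵ_(β + lam⁺)`, where `lam = ℵ_β`.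

The hypothesis of the second part holds for all known uniform ultrafilters of small character over
`lam`: they are sums, along an ultrafilter over `cf lam`, of ultrafilters over cardinals
`lam_i < lam` that are `lam_i`-complete (or finite products of such), and so they are
`ν`-indecomposable for all `ν` outside a set of fewer than `lam` measurable cardinals.  So such an
ultrafilter can have a singular character below `2 ^ lam` only if `2 ^ lam > ℵ_(β + lam⁺)`.

Idea of the proof.  As in Silver's factorisation theorem, indecomposability in `(μ, 2 ^ μ⁺]` gives a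
map `φ` into a set of size at most `2 ^ μ⁺` such that every map into a set of size at most `μ`
factors through `φ` on a member of `W`.  If `θ = cf (Ch W) < lam`, then a base is a union of `θ`
smaller families; close each of them under intersections with the `φ`-preimages, and choose
`A_ξ` in `W` not containing a member of the `ξ`-th closure.  The map `x ↦ {ξ : x ∈ A_ξ}` into a set
of size `2 ^ θ` factors through `φ` on some member of `W`, a contradiction.
-/

namespace Pool.Agent.Results.MP_73396e_lc.CofinalityOfCharacter

open Cardinal Pool.Agent.Helper97.SC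

universe u

theorem result {α : Type u} (hl : (#α).IsStrongLimit) (hs : (#α).IsSingular) (W : Ultrafilter α)
    (hU : Uniform W) :
    (∀ μ : Cardinal.{u}, μ < #α → 2 ^ (Ch W).ord.cof ≤ μ →
      ∃ ν : Cardinal.{u}, μ < ν ∧ ν ≤ 2 ^ Order.succ μ ∧ Decomposable W ν) ∧
    ((∀ ρ : Cardinal.{u}, ρ < #α → ∃ μ : Cardinal.{u}, ρ ≤ μ ∧ μ < #α ∧
        ∀ ν : Cardinal.{u}, μ < ν → ν ≤ 2 ^ Order.succ μ → ¬ Decomposable W ν) →
      #α < (Ch W).ord.cof ∧
      ((Ch W).IsSingular → ∀ β : Ordinal.{u}, #α = aleph β →
        aleph (β + (Order.succ #α).ord) ≤ Ch W)) := by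
  refine ⟨fun μ h1 h2 => decomposable_of_cof hl hs hU h1 h2, fun hind => ?_⟩
  have h1 := lt_cof hl hs hU hind
  exact ⟨h1, fun h2 β hβ => aleph_le_of_lt_cof h2 (card_le_Ch hl hU) h1 β hβ⟩

end Pool.Agent.Results.MP_73396e_lc.CofinalityOfCharacter
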