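import Pool.Agent.Helper23.XB.Z2

/-!
# Consistency of a singular character below the power set, over a strong limit singular cardinal

If there is a supercompact cardinal then there is a countable transitive model of ZFC with a
singular strong limit cardinal `lam` and a uniform ultrafilter over `lam` whose character is a
singular cardinal less than `2 ^ lam`.
-/

set_option autoImplicit false

namespace Pool.Agent.Results.MP_73396e_lc.SingularConsistent

open Pool.Agent.Helper23.XB

/-- **Positive answer to Q1**, from a supercompact cardinal. -/
theorem result (h : ∃ κ : Cardinal.{0}, Supercompact κ) :
    ∃ M : Set ZFSet.{0}, M.Countable ∧ Pool.Agent.Helper32.HB.IsTransModelZFC M ∧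
      SingularCharacter M := by
  obtain ⟨κ, hκ⟩ := h
  exact main κ hκ

end Pool.Agent.Results.MP_73396e_lc.SingularConsistent
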